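import Pool.Agent.Helper44.TOT.Defs

set_option autoImplicit false

namespace Pool.Agent.Helper12.TOT

open Pool.Agent.Helper44.TOT

/-- elementary: `exp (-2u) ≤ 1 - u` for `0 ≤ u ≤ 1/2` -/
theorem exp_le_one_sub {u : ℝ} (h0 : 0 ≤ u) (h1 : u ≤ 1 / 2) : Real.exp (-(2 * u)) ≤ 1 - u := by
  have h2 : 2 * u + 1 ≤ Real.exp (2 * u) := Real.add_one_le_exp (2 * u)
  have h3 : (1 : ℝ) ≤ (1 - u) * Real.exp (2 * u) := by nlinarith
  rw [Real.exp_neg, inv_eq_one_div, div_le_iff₀ (Real.exp_pos _)]
  exact h3

theorem phaseTwo (hConv : Conv) : PhaseTwo := by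
  intro a C0 ρ ι C6 N0 ε hC hG B T hB hT hlag
  refine ⟨3, ?_⟩
  intro h x0 x hx0 hx0x hTx hIH
  set K1 : ℝ := 2 * (a : ℝ) + 3 with hK1
  have hK1pos : 0 < K1 := by positivity
  set t : ℝ := tt x0 x with ht
  have hρ := hC.hρ
  have hN0 := hG.hN0
  have hN0pos : 0 < N0 := by linarith
  have hεeq := hG.hε
  have hε1 := hG.hε1
  have hεpos : 0 < ε := by rw [hεeq]; positivity
  have hC0 := hC.hC0
  have hι := hC.hι
  have hι' := hC.hι'
  have hρN : N0 * ε / 2 = ρ := by rw [hεeq]; field_simp
  have ht0 : 0 ≤ t := le_trans hT hTx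
  have hP1 : 1 ≤ 1 + ε * t := by nlinarith [mul_nonneg hεpos.le ht0]
  have hPpos : 0 < 1 + ε * t := by linarith
  have hNN : N0 ≤ NN N0 ε t := by
    unfold NN
    nlinarith [mul_nonneg hN0pos.le (mul_nonneg (mul_nonneg hεpos.le ht0) (by linarith : (0:ℝ) ≤ 2 + ε * t))]
  have hNNpos : 0 < NN N0 ε t := by linarith
  have hNB : N0 ≤ NN N0 ε t * B := by nlinarith
  have hNBpos : 0 < NN N0 ε t * B := by positivity
  obtain ⟨hl1, hl2⟩ := hlag t hTx
  -- logs
  have hx0r : (3 : ℝ) ≤ x0 := by exact_mod_cast hx0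
  have hxr : (3 : ℝ) ≤ x := by
    have : (x0 : ℝ) ≤ x := by exact_mod_cast hx0x
    linarith
  have hlx0 : 0 < Real.log x0 := Real.log_pos (by linarith)
  have hlx : 0 < Real.log x := Real.log_pos (by linarith)
  have hxpos : (0 : ℝ) < x := by linarith
  -- for y with x^{uB} ≤ y
  set uB : ℝ := (NN N0 ε t * B) ^ (-K1) with huB
  have huBpos : 0 < uB := Real.rpow_pos_of_pos hNBpos _
  have huBsmall : uB ≤ 1 / 40 := by
    refine le_trans ?_ hG.small
    exact Real.rpow_le_rpow_of_nonpos hN0pos hNB (by linarith)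
  have hloguB : Real.log uB = -(K1 * Real.log (NN N0 ε t * B)) := by
    rw [huB, Real.log_rpow hNBpos]; ring
  have key : ∀ y : ℕ, (x : ℝ) ^ uB ≤ y → y < x →
      x0 ≤ y ∧ 0 < Real.log y ∧ 0 ≤ Real.log (Real.log x / Real.log y) ∧
      Real.log (Real.log x / Real.log y) ≤ K1 * Real.log (NN N0 ε t * B) ∧
      tt x0 y = t - Real.log (Real.log x / Real.log y) := by
    intro y hy hyx
    have hy1 : (1 : ℝ) < (x : ℝ) ^ uB := Real.one_lt_rpow (by linarith) huBpos
    have hypos : (0 : ℝ) < y := by linarith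
    have hly : 0 < Real.log y := Real.log_pos (by linarith)
    have hyx' : (y : ℝ) < x := by exact_mod_cast hyx
    have hlyx : Real.log y < Real.log x := Real.log_lt_log hypos hyx'
    have h1 : uB * Real.log x ≤ Real.log y := by
      rw [← Real.log_rpow hxpos]
      exact Real.log_le_log (by positivity) hy
    have h2 : Real.log (Real.log x / Real.log y) ≤ K1 * Real.log (NN N0 ε t * B) := by
      have h3 : Real.log x / Real.log y ≤ 1 / uB := by
        rw [div_le_div_iff₀ hly huBpos]; linarith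
      have h4 := Real.log_le_log (by positivity) h3
      rw [Real.log_div one_ne_zero huBpos.ne', Real.log_one, hloguB] at h4
      linarith
    have h5 : 0 ≤ Real.log (Real.log x / Real.log y) := by
      apply Real.log_nonneg
      rw [le_div_iff₀ hly]; linarith
    have h6 : tt x0 y = t - Real.log (Real.log x / Real.log y) := by
      rw [ht]; unfold tt
      rw [Real.log_div hly.ne' hlx0.ne', Real.log_div hlx.ne' hlx0.ne',
        Real.log_div hlx.ne' hly.ne']
      ring
    have h7 : 0 < tt x0 y := by rw [h6]; linarith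
    have h8 : x0 ≤ y := by
      unfold tt at h7
      by_contra hcon
      push Not at hcon
      have h9 : (y : ℝ) ≤ x0 := by exact_mod_cast hcon.le
      have h10 : Real.log y ≤ Real.log x0 := Real.log_le_log hypos h9
      have h11 : Real.log y / Real.log x0 ≤ 1 := by rw [div_le_one hlx0]; exact h10
      have h12 : Real.log (Real.log y / Real.log x0) ≤ 0 :=
        Real.log_nonpos (by positivity) h11
      linarith
    exact ⟨h8, hly, h5, h2, h6⟩
  have hset : ∀ (β : ℝ), 0 < β → ∀ y : ℕ,
      blk (fun q => β ≤ b2 h x0 N0 ε x q) y =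
        blk (fun q => β ≤ NN N0 ε (tt x0 x) * (h q - bb ε (tt x0 x))) y := by
    intro β hβ y
    have : (fun q => β ≤ b2 h x0 N0 ε x q) =
        (fun q => β ≤ NN N0 ε (tt x0 x) * (h q - bb ε (tt x0 x))) := by
      funext q
      unfold b2 Gx
      apply propext
      constructor
      · intro hq
        rcases le_max_iff.mp hq with h1 | h1
        · linarith
        · exact h1
      · intro hq
        exact le_trans hq (le_max_right _ _)
    rw [this]
  -- the ratio
  have ratio : ∀ y : ℕ, (x : ℝ) ^ uB ≤ y → y < x →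
      (1 + ε * tt x0 y) / (1 + ε * tt x0 x) =
        1 - ε * Real.log (Real.log x / Real.log y) / (1 + ε * t) := by
    intro y hy hyx
    obtain ⟨_, _, _, _, h6⟩ := key y hy hyx
    rw [h6, ← ht]
    field_simp
    ring
  have mono : ∀ (r s Y : ℝ), 0 ≤ s → s ≤ r → 0 ≤ Y →
      C0 * Real.exp (-(r ^ a)) * Y ≤ C0 * Real.exp (-(s ^ a)) * Y := by
    intro r s Y hs hsr hY
    have h1 : s ^ a ≤ r ^ a := pow_le_pow_left₀ hs hsr a
    have h2 : Real.exp (-(r ^ a)) ≤ Real.exp (-(s ^ a)) := Real.exp_le_exp.mpr (by linarith)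
    have h3 : C0 * Real.exp (-(r ^ a)) ≤ C0 * Real.exp (-(s ^ a)) :=
      mul_le_mul_of_nonneg_left h2 (by linarith)
    exact mul_le_mul_of_nonneg_right h3 hY
  constructor
  · intro q
    unfold b2
    exact le_max_left _ _
  · intro y β hy hyx hβ
    obtain ⟨h8, hly, h5, h2, h6⟩ := key y hy hyx
    rw [hset β hβ y]
    have hc := hConv h x0 x y a N0 ε C0 β hx0 h8 hyx hN0pos hεpos (by linarith)
      (hIH y h8 hyx) hβ
    refine le_trans hc ?_
    rw [hρN, ratio y hy hyx]
    set lag : ℝ := Real.log (Real.log x / Real.log y) with hlagdef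
    have hYnn : (0 : ℝ) ≤ (y : ℝ) / Real.log y := by positivity
    apply mono _ _ _ _ _ hYnn
    · have : 0 ≤ β + ρ * lag := by positivity
      have h1ι : (0 : ℝ) ≤ 1 - ι := by linarith
      positivity
    · have hu : ε * lag / (1 + ε * t) ≤ ι / 2 := by
        rw [div_le_iff₀ hPpos]
        calc ε * lag ≤ ε * (K1 * Real.log (NN N0 ε t * B)) := by
              apply mul_le_mul_of_nonneg_left h2 hεpos.le
          _ ≤ ι / 2 * (1 + ε * t) := hl1
      have hu0 : 0 ≤ ε * lag / (1 + ε * t) := by positivity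
      have hsq : 1 - ι ≤ (1 - ε * lag / (1 + ε * t)) ^ 2 := by nlinarith
      have : 0 ≤ β + ρ * lag := by positivity
      exact mul_le_mul_of_nonneg_right hsq this
  · intro y β hy hyx hβ
    have hy' : (x : ℝ) ^ uB ≤ y := by
      refine le_trans ?_ hy
      apply Real.rpow_le_rpow_of_exponent_le (by linarith)
      linarith
    obtain ⟨h8, hly, h5, h2, h6⟩ := key y hy' hyx
    rw [hset β hβ y]
    have hc := hConv h x0 x y a N0 ε C0 β hx0 h8 hyx hN0pos hεpos (by linarith)
      (hIH y h8 hyx) hβ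
    refine le_trans hc ?_
    rw [hρN, ratio y hy' hyx]
    set lag : ℝ := Real.log (Real.log x / Real.log y) with hlagdef
    have hYnn : (0 : ℝ) ≤ (y : ℝ) / Real.log y := by positivity
    have hypos : (0 : ℝ) < y := by
      have : (1 : ℝ) < (x : ℝ) ^ uB := Real.one_lt_rpow (by linarith) huBpos
      linarith
    -- lag ≤ 3/2
    have hlag3 : lag ≤ 3 / 2 := by
      have h1 : (2 / 5 : ℝ) * Real.log x ≤ Real.log y := by
        rw [← Real.log_rpow hxpos]
        exact Real.log_le_log (by positivity) hy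
      have h3 : Real.log x / Real.log y ≤ 5 / 2 := by
        rw [div_le_div_iff₀ hly (by norm_num)]; linarith
      have hpos : 0 < Real.log x / Real.log y := by positivity
      have h4 := Real.log_le_sub_one_of_pos hpos
      rw [hlagdef]
      linarith
    have hrexp : (Real.log y / Real.log x) ^ ((1 : ℝ) / 25) = Real.exp (-(lag / 25)) := by
      rw [Real.rpow_def_of_pos (by positivity)]
      congr 1
      rw [hlagdef, Real.log_div hly.ne' hlx.ne', Real.log_div hlx.ne' hly.ne']
      ring
    rw [hrexp]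
    apply mono _ _ _ _ _ hYnn
    · positivity
    · have hu0 : 0 ≤ ε * lag / (1 + ε * t) := by positivity
      have hu1 : ε * lag / (1 + ε * t) ≤ lag / 100 := by
        rw [div_le_iff₀ hPpos]
        have h9 : ε * lag ≤ (1 / 100) * lag := mul_le_mul_of_nonneg_right hε1 h5
        have h10 : lag / 100 * 1 ≤ lag / 100 * (1 + ε * t) :=
          mul_le_mul_of_nonneg_left hP1 (by positivity)
        linarith
      have hu2 : ε * lag / (1 + ε * t) ≤ 1 / 2 := by linarith
      have hexp := exp_le_one_sub hu0 hu2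
      have hexp2 : Real.exp (-(lag / 50)) ≤ 1 - ε * lag / (1 + ε * t) := by
        refine le_trans ?_ hexp
        apply Real.exp_le_exp.mpr
        linarith
      have hsq : Real.exp (-(lag / 25)) ≤ (1 - ε * lag / (1 + ε * t)) ^ 2 := by
        have : Real.exp (-(lag / 25)) = Real.exp (-(lag / 50)) ^ 2 := by
          rw [← Real.exp_nat_mul]; congr 1; push_cast; ring
        rw [this]
        exact pow_le_pow_left₀ (Real.exp_pos _).le hexp2 2
      calc β * Real.exp (-(lag / 25)) ≤ β * (1 - ε * lag / (1 + ε * t)) ^ 2 :=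
            mul_le_mul_of_nonneg_left hsq hβ.le
        _ ≤ (1 - ε * lag / (1 + ε * t)) ^ 2 * (β + ρ * lag) := by
            have hρl : 0 ≤ ρ * lag := by positivity
            rw [mul_comm β]
            apply mul_le_mul_of_nonneg_left _ (sq_nonneg _)
            linarith

end Pool.Agent.Helper12.TOT
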